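import Pool.Agent.Q224.DJ.Forced

/-!
Project DJ, job E1G: the first exceptional structure.
-/

set_option autoImplicit false

namespace Pool.Agent.Q247.DJ

open Finset Classical Pool.Agent.Q224.DJ

/-- injective colours different from the last one -/
theorem exists_inj {V : Type} (s : Finset V) (hs : s.card ≤ 6) :
    ∃ f : V → Fin 7, (∀ x ∈ s, ∀ y ∈ s, f x = f y → x = y) ∧ ∀ x, f x ≠ 6 := by
  refine ⟨fun x => if h : x ∈ s then ⟨(s.equivFin ⟨x, h⟩).val, by
    have := (s.equivFin ⟨x, h⟩).2
    omega⟩ else 0, ?_, ?_⟩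
  · intro x hx y hy h
    simp only [dif_pos hx, dif_pos hy] at h
    have h1 := congrArg Fin.val h
    have h2 := s.equivFin.injective (Fin.ext h1)
    exact congrArg Subtype.val h2
  · intro x h
    have h1 := congrArg Fin.val h
    simp only at h1
    split_ifs at h1 with hx
    · have := (s.equivFin ⟨x, hx⟩).2
      have h2 : ((6 : Fin 7) : ℕ) = 6 := rfl
      simp only [h2] at h1
      omega
    · have h2 : ((6 : Fin 7) : ℕ) = 6 := rfl
      rw [h2] at h1
      exact absurd h1 (by norm_num)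

/-- The first exceptional structure. -/
theorem e1g : S_E1G := by
  rintro V _ G K R hyp h3 ⟨Q, T, hQ, hT, hQT, cQ, cT, hc, hj, hi, hq⟩
  obtain ⟨S, hS⟩ : ∃ S, S = R \ (Q ∪ T) := ⟨_, rfl⟩
  have hQTc : (Q ∪ T).card = 9 := by
    rw [Finset.card_union_of_disjoint hQT, cQ, cT]
  have hS5 : S.card ≤ 5 := by
    rw [hS, Finset.card_sdiff_of_subset (Finset.union_subset hQ hT), hQTc]
    have := hyp.2.2.2.2.1
    omega
  have hcase : ∀ x ∈ R, x ∈ Q ∨ x ∈ T ∨ x ∈ S := by
    intro x hx
    by_cases h1 : x ∈ Q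
    · exact Or.inl h1
    by_cases h2 : x ∈ T
    · exact Or.inr (Or.inl h2)
    · refine Or.inr (Or.inr ?_)
      rw [hS, Finset.mem_sdiff, Finset.mem_union]
      exact ⟨hx, fun h => h.elim h1 h2⟩
  have hSQ : ∀ x ∈ S, x ∉ Q := by
    intro x hx h
    rw [hS, Finset.mem_sdiff, Finset.mem_union] at hx
    exact hx.2 (Or.inl h)
  have hST : ∀ x ∈ S, x ∉ T := by
    intro x hx h
    rw [hS, Finset.mem_sdiff, Finset.mem_union] at hx
    exact hx.2 (Or.inr h)
  have hTQ : ∀ x ∈ T, x ∉ Q := fun x hx h => Finset.disjoint_left.1 hQT h hx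
  have hSR : ∀ x ∈ S, x ∈ R := by
    intro x hx
    rw [hS, Finset.mem_sdiff] at hx
    exact hx.1
  -- vertices of Q have no neighbours in K
  have hQK : ∀ q ∈ Q, (nb G K q).card = 0 := by
    intro q hqQ
    have h1 := nb_add hyp q
    have h2 : Q.erase q ∪ T ⊆ nb G R q := by
      intro x hx
      rw [Finset.mem_union, Finset.mem_erase] at hx
      rcases hx with ⟨hx1, hx2⟩ | hx
      · exact mem_nb.mpr ⟨hQ hx2, hc q hqQ x hx2 hx1.symm⟩
      · exact mem_nb.mpr ⟨hT hx, hj q hqQ x hx⟩
    have h4 : (Q.erase q ∪ T).card = 8 := by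
      rw [Finset.card_union_of_disjoint (Finset.disjoint_of_subset_left (Finset.erase_subset _ _) hQT),
        Finset.card_erase_of_mem hqQ, cQ, cT]
    have h5 := Finset.card_le_card h2
    omega
  have hTK : ∀ t ∈ T, (nb G K t).card ≤ 2 := by
    intro t ht
    have h1 := nb_add hyp t
    have h2 : Q ⊆ nb G R t := fun x hx => mem_nb.mpr ⟨hQ hx, (hj x hx t ht).symm⟩
    have h5 := Finset.card_le_card h2
    omega
  obtain ⟨f1, hf1, hf1'⟩ := exists_inj Q (by omega)
  obtain ⟨f2, hf2, hf2'⟩ := exists_inj S (by omega)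
  obtain ⟨f, hf⟩ : ∃ f : V → Fin 7, f = fun x => if x ∈ Q then f1 x else if x ∈ T then 6 else f2 x :=
    ⟨_, rfl⟩
  have fQ : ∀ x ∈ Q, f x = f1 x := by
    intro x hx
    rw [hf]
    exact if_pos hx
  have fT : ∀ x ∈ T, f x = 6 := by
    intro x hx
    rw [hf]
    simp only [if_neg (hTQ x hx), if_pos hx]
  have fS : ∀ x ∈ S, f x = f2 x := by
    intro x hx
    rw [hf]
    simp only [if_neg (hSQ x hx), if_neg (hST x hx)]
  have hnQS : ∀ x ∈ Q, ∀ y ∈ S, ¬ G.Adj x y := by
    intro x hx y hy h
    rcases hq x hx y (hSR y hy) h with h1 | h1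
    · exact hSQ y hy h1
    · exact hST y hy h1
  have hcol : Col G R f := by
    intro x hx y hy hxy he
    have hne := G.ne_of_adj hxy
    rcases hcase x hx with h1 | h1 | h1 <;> rcases hcase y hy with h2 | h2 | h2
    · rw [fQ x h1, fQ y h2] at he
      exact hne (hf1 x h1 y h2 he)
    · rw [fQ x h1, fT y h2] at he
      exact hf1' x he
    · exact hnQS x h1 y h2 hxy
    · rw [fT x h1, fQ y h2] at he
      exact hf1' y he.symm
    · exact hi x h1 y h2 hxy
    · rw [fT x h1, fS y h2] at he
      exact hf2' y he.symm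
    · exact hnQS y h2 x h1 hxy.symm
    · rw [fS x h1, fT y h2] at he
      exact hf2' x he
    · rw [fS x h1, fS y h2] at he
      exact hne (hf2 x h1 y h2 he)
  -- the last colour
  have h6 : ∃ v ∈ K, ¬ Sees G R f v 6 := by
    by_contra hcon
    push Not at hcon
    have h1 : K ⊆ T.biUnion (fun t => nb G K t) := by
      intro v hv
      obtain ⟨u, hu, hvu, he⟩ := hcon v hv
      rw [Finset.mem_biUnion]
      rcases hcase u hu with h2 | h2 | h2
      · rw [fQ u h2] at he
        exact absurd he (hf1' u)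
      · exact ⟨u, h2, mem_nb.mpr ⟨hv, hvu.symm⟩⟩
      · rw [fS u h2] at he
        exact absurd he (hf2' u)
    have h2 := (Finset.card_le_card h1).trans (Finset.card_biUnion_le_card_mul T _ 2 hTK)
    rw [hyp.2.2.1, cT] at h2
    omega
  -- the other colours
  have hoth : ∀ c, c ≠ 6 → ∃ v ∈ K, ∃ v' ∈ K, v ≠ v' ∧ ¬ Sees G R f v c ∧ ¬ Sees G R f v' c := by
    intro c hc6
    have h1 : (K.filter (fun v => Sees G R f v c)).card ≤ 3 := by
      by_cases hs : ∃ s ∈ S, f s = c
      · obtain ⟨s, hs, hsc⟩ := hs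
        refine (Finset.card_le_card ?_).trans (h3 s (hSR s hs))
        intro v hv
        rw [Finset.mem_filter] at hv
        obtain ⟨hvK, u, hu, hvu, he⟩ := hv
        rcases hcase u hu with h2 | h2 | h2
        · exfalso
          have h4 := hQK u h2
          rw [Finset.card_eq_zero] at h4
          have h5 : v ∈ nb G K u := mem_nb.mpr ⟨hvK, hvu.symm⟩
          rw [h4] at h5
          exact absurd h5 (Finset.notMem_empty v)
        · rw [fT u h2] at he
          exact absurd he.symm hc6
        · have h4 : u = s := by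
            apply hf2 u h2 s hs
            rw [← fS u h2, ← fS s hs, he, hsc]
          rw [← h4]
          exact mem_nb.mpr ⟨hvK, hvu.symm⟩
      · have h2 : K.filter (fun v => Sees G R f v c) = ∅ := by
          rw [Finset.filter_eq_empty_iff]
          rintro v hvK ⟨u, hu, hvu, he⟩
          rcases hcase u hu with h2 | h2 | h2
          · have h4 := hQK u h2
            rw [Finset.card_eq_zero] at h4
            have h5 : v ∈ nb G K u := mem_nb.mpr ⟨hvK, hvu.symm⟩
            rw [h4] at h5
            exact absurd h5 (Finset.notMem_empty v)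
          · rw [fT u h2] at he
            exact absurd he.symm hc6
          · exact hs ⟨u, h2, he⟩
        rw [h2]
        simp
    have h2 : (K.filter (fun v => Sees G R f v c)).card +
        (K.filter (fun v => ¬ Sees G R f v c)).card = K.card :=
      Finset.card_filter_add_card_filter_not (s := K) (fun v => Sees G R f v c)
    rw [hyp.2.2.1] at h2
    obtain ⟨v, hv, v', hv', hne⟩ := Finset.one_lt_card.mp
      (show 1 < (K.filter (fun v => ¬ Sees G R f v c)).card by omega)
    rw [Finset.mem_filter] at hv hv'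
    exact ⟨v, hv.1, v', hv'.1, hne, hv.2, hv'.2⟩
  refine ⟨f, hcol, ?_, ?_⟩
  · intro c
    by_cases hc6 : c = 6
    · rw [hc6]
      exact h6
    · obtain ⟨v, hv, _, _, _, h1, _⟩ := hoth c hc6
      exact ⟨v, hv, h1⟩
  · intro c c' hcc
    by_cases hc6 : c = 6
    · obtain ⟨v, hv, v', hv', hne, h1, h2⟩ := hoth c' (fun h => hcc (hc6.trans h.symm))
      exact ⟨v, hv, v', hv', hne, fun h => h1 h.2, fun h => h2 h.2⟩
    · obtain ⟨v, hv, v', hv', hne, h1, h2⟩ := hoth c hc6
      exact ⟨v, hv, v', hv', hne, fun h => h1 h.1, fun h => h2 h.1⟩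

end Pool.Agent.Q247.DJ
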