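import Pool.Agent.Q224.DJ.Stm

/-!
Project DJ, job EX: the example on 22 vertices.
-/

set_option autoImplicit false

namespace Pool.Agent.Q247.DJ

open Finset Pool.Agent.Q224.DJ

instance decAdj : DecidableRel exG.Adj := fun x y => by
  unfold exG
  infer_instance

/-- the neighbours, as a set computed by a decision procedure -/
theorem card_nbrs : ∀ v : Fin 22, (univ.filter (fun w => exG.Adj v w)).card =
    if v.val < 15 then 8 else 6 := by
  decide

theorem degree_eq (v : Fin 22) [Fintype (exG.neighborSet v)] :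
    exG.degree v = if v.val < 15 then 8 else 6 := by
  rw [← card_nbrs v, ← SimpleGraph.card_neighborFinset_eq_degree]
  congr 1
  ext w
  simp

theorem adj_part {x y : Fin 22} (h : exG.Adj x y) : x.val < 15 ↔ y.val < 15 := by
  rcases h.2 with ⟨h1, h2, _⟩ | ⟨h1, h2⟩ <;> omega

theorem not_reach {x y : Fin 22} (h : exG.Reachable x y) : x.val < 15 ↔ y.val < 15 := by
  obtain ⟨p⟩ := h
  induction p with
  | nil => exact Iff.rfl
  | cons h _ ih => exact (adj_part h).trans ih

theorem not_conn : ¬ exG.Connected := by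
  intro h
  have h1 := not_reach (h.preconnected 0 21)
  simp at h1

/-- cliques in the first part have at most six elements -/
theorem clique_blocks : ∀ B : Finset (Fin 8), (∀ a ∈ B, ∀ b ∈ B, a ≠ b →
    (a.val < 5 ∧ b.val < 5 ∧ ((a.val + 1) % 5 = b.val ∨ (b.val + 1) % 5 = a.val))) →
    B.card ≤ 2 := by
  intro B hB
  by_contra h
  push Not at h
  obtain ⟨a, b, c, ha, hb, hc, hab, hac, hbc⟩ := Finset.two_lt_card_iff.1 h
  have h1 := hB a ha b hb hab
  have h2 := hB a ha c hc hac
  have h3 := hB b hb c hc hbc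
  omega

theorem fibre : ∀ a : Fin 8, (univ.filter (fun x : Fin 22 => x.val / 3 = a.val)).card ≤ 3 := by
  decide

theorem small_clique {s : Finset (Fin 22)} (h : exG.IsClique (s : Set (Fin 22))) {v : Fin 22}
    (hv : v ∈ s) (hv15 : v.val < 15) : s.card ≤ 6 := by
  have hall : ∀ x ∈ s, x.val < 15 := by
    intro x hx
    by_cases hxv : x = v
    · rw [hxv]
      exact hv15
    · exact (adj_part (h hx hv hxv)).2 hv15
  obtain ⟨f, hf⟩ : ∃ f : Fin 22 → Fin 8, f = fun x => ⟨x.val / 3, by omega⟩ := ⟨_, rfl⟩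
  have hfv : ∀ x, (f x).val = x.val / 3 := fun x => by rw [hf]
  have h1 : (s.image f).card ≤ 2 := by
    apply clique_blocks
    intro a ha b hb hab
    obtain ⟨x, hx, rfl⟩ := Finset.mem_image.1 ha
    obtain ⟨y, hy, rfl⟩ := Finset.mem_image.1 hb
    have hxy : x ≠ y := fun h => hab (by rw [h])
    have h2 := hall x hx
    have h3 := hall y hy
    have h4 : x.val / 3 ≠ y.val / 3 := by
      intro h5
      exact hab (Fin.ext (by rw [hfv, hfv, h5]))
    rw [hfv, hfv]
    rcases (h hx hy hxy).2 with ⟨_, _, h5⟩ | ⟨h5, _⟩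
    · refine ⟨by omega, by omega, ?_⟩
      rcases h5 with h5 | h5 | h5
      · exact absurd h5 h4
      · exact Or.inl h5
      · exact Or.inr h5
    · omega
  have h2 : s.card ≤ 3 * (s.image f).card := by
    apply Finset.card_le_mul_card_image
    intro a _
    refine (Finset.card_le_card ?_).trans (fibre a)
    intro x hx
    rw [Finset.mem_filter] at hx ⊢
    refine ⟨Finset.mem_univ _, ?_⟩
    rw [← hx.2, hfv]
  omega

theorem big_clique {s : Finset (Fin 22)} (h : exG.IsClique (s : Set (Fin 22))) : s.card ≤ 7 := by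
  by_cases h1 : ∃ v ∈ s, v.val < 15
  · obtain ⟨v, hv, hv15⟩ := h1
    exact (small_clique h hv hv15).trans (by norm_num)
  · push Not at h1
    have h2 : s ⊆ univ.filter (fun x : Fin 22 => 15 ≤ x.val) := fun x hx =>
      Finset.mem_filter.2 ⟨Finset.mem_univ _, h1 x hx⟩
    refine (Finset.card_le_card h2).trans ?_
    decide

theorem the_clique : exG.IsNClique 7 (univ.filter (fun x : Fin 22 => 15 ≤ x.val)) := by
  rw [SimpleGraph.isNClique_iff]
  refine ⟨?_, by decide⟩
  intro x hx y hy hxy
  simp only [Finset.coe_filter, Set.mem_setOf_eq] at hx hy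
  exact ⟨hxy, Or.inr ⟨hx.2, hy.2⟩⟩

theorem cliqueNum_eq : exG.cliqueNum = 7 := by
  apply le_antisymm
  · obtain ⟨s, hs⟩ := exG.exists_isNClique_cliqueNum
    rw [← hs.card_eq]
    exact big_clique hs.isClique
  · rw [← the_clique.card_eq]
    exact the_clique.isClique.card_le_cliqueNum

/-- the colours -/
def colr (x : Fin 22) : Fin 8 :=
  if x.val < 15 then
    (if x.val = 0 then 0 else if x.val = 1 then 1 else if x.val = 2 then 2
      else if x.val = 3 then 3 else if x.val = 4 then 4 else if x.val = 5 then 5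
      else if x.val = 6 then 6 else if x.val = 7 then 7 else if x.val = 8 then 0
      else if x.val = 9 then 1 else if x.val = 10 then 2 else if x.val = 11 then 3
      else if x.val = 12 then 4 else if x.val = 13 then 5 else 6)
  else ⟨x.val - 15, by omega⟩

theorem colorable8 : exG.Colorable 8 := by
  refine ⟨SimpleGraph.Coloring.mk colr ?_⟩
  intro v w h
  revert v w
  decide

theorem not_colorable7 : ¬ exG.Colorable 7 := by
  rintro ⟨C⟩
  obtain ⟨S, hS⟩ : ∃ S : Finset (Fin 22), S = univ.filter (fun x : Fin 22 => x.val < 15) := ⟨_, rfl⟩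
  have hScard : S.card = 15 := by
    rw [hS]
    decide
  obtain ⟨c, _, hc⟩ := Finset.exists_lt_card_fiber_of_mul_lt_card_of_maps_to
    (s := S) (t := (univ : Finset (Fin 7))) (f := fun x => C x) (n := 2)
    (fun x _ => Finset.mem_univ _) (by rw [hScard]; simp)
  obtain ⟨x, y, z, hx, hy, hz, hxy, hxz, hyz⟩ := Finset.two_lt_card_iff.1 hc
  rw [Finset.mem_filter] at hx hy hz
  have hx1 : x.val < 15 := by
    have := hx.1
    rw [hS, Finset.mem_filter] at this
    exact this.2
  have hy1 : y.val < 15 := by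
    have := hy.1
    rw [hS, Finset.mem_filter] at this
    exact this.2
  have hz1 : z.val < 15 := by
    have := hz.1
    rw [hS, Finset.mem_filter] at this
    exact this.2
  have nxy : ¬ exG.Adj x y := fun h => C.valid h (hx.2.trans hy.2.symm)
  have nxz : ¬ exG.Adj x z := fun h => C.valid h (hx.2.trans hz.2.symm)
  have nyz : ¬ exG.Adj y z := fun h => C.valid h (hy.2.trans hz.2.symm)
  have key : ∀ {x y : Fin 22}, x ≠ y → x.val < 15 → y.val < 15 → ¬ exG.Adj x y →
      ¬ (x.val / 3 = y.val / 3 ∨ (x.val / 3 + 1) % 5 = y.val / 3 ∨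
      (y.val / 3 + 1) % 5 = x.val / 3) := fun h1 h2 h3 h4 h5 => h4 ⟨h1, Or.inl ⟨h2, h3, h5⟩⟩
  have k1 := key hxy hx1 hy1 nxy
  have k2 := key hxz hx1 hz1 nxz
  have k3 := key hyz hy1 hz1 nyz
  omega

theorem chi_eq : exG.chromaticNumber = 8 := by
  apply le_antisymm
  · exact colorable8.chromaticNumber_le
  · by_contra h
    push Not at h
    have h1 : exG.chromaticNumber < ((7 : ℕ) : ℕ∞) + 1 := by
      refine h.trans_le (le_of_eq ?_)
      norm_num
    exact not_colorable7 (SimpleGraph.chromaticNumber_le_iff_colorable.1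
      (ENat.lt_coe_add_one_iff.1 h1))

theorem maxdeg [DecidableRel exG.Adj] : exG.maxDegree = 8 := by
  apply le_antisymm
  · apply SimpleGraph.maxDegree_le_of_forall_degree_le
    intro v
    rw [degree_eq]
    split_ifs <;> norm_num
  · have h := SimpleGraph.degree_le_maxDegree exG 0
    rw [degree_eq] at h
    simpa using h

/-- The example. -/
theorem ex : S_EX := by
  refine ⟨⟨cliqueNum_eq, ?_, ?_⟩, not_conn, ?_⟩
  · exact chi_eq
  · exact @maxdeg (fun a b => Classical.propDecidable (exG.Adj a b))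
  · intro v hv s hs hvs
    rw [degree_eq] at hv
    have h15 : v.val < 15 := by
      by_contra h
      rw [if_neg h] at hv
      norm_num at hv
    have h1 := small_clique hs.isClique hvs h15
    rw [hs.card_eq] at h1
    norm_num at h1

end Pool.Agent.Q247.DJ
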