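import Pool.Agent.Q247.DJ.Star

/-!
Project DJ, job SIGNE: four vertices with three neighbours each, two different partitions.
-/

set_option autoImplicit false

namespace Pool.Agent.Q247.DJ

open Finset Classical Pool.Agent.Q224.DJ

section

variable {V : Type} [Fintype V] {G : SimpleGraph V} {K R : Finset V}

theorem sees_two (hyp : Hyp G K R) {g : V → Fin 7} {a b v : V} (ha : a ∈ R) (hb : b ∈ R)
    (hab : a ≠ b) (h1 : v ∈ nb G K a) (h2 : v ∈ nb G K b) {c : Fin 7} (hs : Sees G R g v c) :
    c = g a ∨ c = g b := by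
  obtain ⟨u, hu, hvu, he⟩ := hs
  by_contra hc
  rw [not_or] at hc
  have e1 : u ≠ a := by
    rintro rfl
    exact hc.1 he.symm
  have e2 : u ≠ b := by
    rintro rfl
    exact hc.2 he.symm
  exact three hyp (mem_nb.mp h1).1 hu ha hb hvu (mem_nb.mp h1).2.symm (mem_nb.mp h2).2.symm e1 e2 hab

theorem meet {A B C : Finset V} (hA : A.card = 3) (hB : B.card = 3) (h : A ⊆ B ∪ C) (hne : A ≠ B) :
    ∃ v, v ∈ A ∧ v ∈ C := by
  by_contra hcon
  push Not at hcon
  apply hne
  apply Finset.eq_of_subset_of_card_le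
  · intro x hx
    rcases Finset.mem_union.mp (h hx) with h1 | h1
    · exact h1
    · exact absurd h1 (hcon x hx)
  · omega

end

/-- Four vertices with three neighbours each, two different partitions. -/
theorem signe : S_SIGNE := by
  intro hLB V _ G K R u1 u2 u3 u4 hyp hu1 hu2 hu3 hu4 hnd c1 c2 c3 c4 d12 d34 hun n13 n14
  simp only [List.nodup_cons, List.mem_cons, List.not_mem_nil, or_false, not_or] at hnd
  obtain ⟨⟨h12, h13, h14⟩, ⟨h23, h24⟩, h34, _⟩ := hnd
  obtain ⟨f, hf⟩ := hLB V G ((R.erase u3).erase u1)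
    ((Finset.card_le_card ((Finset.erase_subset _ _).trans (Finset.erase_subset _ _))).trans
      hyp.2.2.2.2.1)
    (fun x _ => (Finset.card_le_card (fun y hy =>
      mem_nb.mpr ⟨Finset.mem_univ _, (mem_nb.mp hy).2⟩)).trans (hyp.2.2.2.2.2.1 x))
    (fun Q _ hQ => hyp.2.2.2.2.2.2 Q (Finset.subset_univ _) hQ)
  have b1 := nb_add hyp u1
  have b3 := nb_add hyp u3
  obtain ⟨a, ha⟩ := exists_colour ((nb G R u1).image f ∪ {f u2}) (by
    refine (Finset.card_union_le _ _).trans ?_
    have e1 := Finset.card_image_le (s := nb G R u1) (f := f)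
    rw [Finset.card_singleton]
    omega)
  rw [Finset.mem_union, not_or, Finset.mem_singleton] at ha
  obtain ⟨ha1, ha2⟩ := ha
  have k1 : Col G (R.erase u3) (Function.update f u1 a) := by
    refine col_update hf fun u hu hhu he => ?_
    exact ha1 (Finset.mem_image.mpr ⟨u, mem_nb.mpr ⟨Finset.mem_of_mem_erase hu, hhu⟩, he⟩)
  obtain ⟨g1, hg1⟩ : ∃ g1, g1 = Function.update f u1 a := ⟨_, rfl⟩
  rw [← hg1] at k1
  obtain ⟨a', ha'⟩ := exists_colour ((nb G R u3).image g1 ∪ {g1 u4}) (by
    refine (Finset.card_union_le _ _).trans ?_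
    have e1 := Finset.card_image_le (s := nb G R u3) (f := g1)
    rw [Finset.card_singleton]
    omega)
  rw [Finset.mem_union, not_or, Finset.mem_singleton] at ha'
  obtain ⟨ha1', ha2'⟩ := ha'
  have k2 : Col G R (Function.update g1 u3 a') := by
    refine col_update k1 fun u hu hhu he => ?_
    exact ha1' (Finset.mem_image.mpr ⟨u, mem_nb.mpr ⟨hu, hhu⟩, he⟩)
  obtain ⟨g, hg⟩ : ∃ g, g = Function.update g1 u3 a' := ⟨_, rfl⟩
  rw [← hg] at k2
  have gu3 : g u3 = a' := by rw [hg, Function.update_self]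
  have gu4 : g u4 = g1 u4 := by rw [hg, Function.update_of_ne (Ne.symm h34)]
  have gu1 : g u1 = a := by rw [hg, Function.update_of_ne h13, hg1, Function.update_self]
  have gu2 : g u2 = f u2 := by
    rw [hg, Function.update_of_ne h23, hg1, Function.update_of_ne (Ne.symm h12)]
  have g12 : g u1 ≠ g u2 := by rw [gu1, gu2]; exact ha2
  have g34 : g u3 ≠ g u4 := by rw [gu3, gu4]; exact ha2'
  -- the four intersections
  have s1 : nb G K u1 ⊆ nb G K u3 ∪ nb G K u4 := by
    rw [← hun]
    exact Finset.subset_union_left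
  have s3 : nb G K u3 ⊆ nb G K u1 ∪ nb G K u2 := by
    rw [hun]
    exact Finset.subset_union_left
  have s4 : nb G K u4 ⊆ nb G K u1 ∪ nb G K u2 := by
    rw [hun]
    exact Finset.subset_union_right
  obtain ⟨v14, m141, m144⟩ := meet c1 c3 s1 n13
  obtain ⟨v13, m131, m133⟩ := meet c1 c4 (by rw [Finset.union_comm]; exact s1) n14
  obtain ⟨v23, m233, m232⟩ := meet c3 c1 s3 n13.symm
  obtain ⟨v24, m244, m242⟩ := meet c4 c1 s4 n14.symm
  have q13 := fun c => sees_two hyp (g := g) (c := c) hu1 hu3 h13 m131 m133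
  have q14 := fun c => sees_two hyp (g := g) (c := c) hu1 hu4 h14 m141 m144
  have q23 := fun c => sees_two hyp (g := g) (c := c) hu2 hu3 h23 m232 m233
  have q24 := fun c => sees_two hyp (g := g) (c := c) hu2 hu4 h24 m242 m244
  have third : ∀ c c', c ≠ c' → ∃ v ∈ K, ∃ v' ∈ K, v ≠ v' ∧ ¬ (Sees G R g v c ∧ Sees G R g v c') ∧
      ¬ (Sees G R g v' c ∧ Sees G R g v' c') := by
    intro c c' hcc
    have t1 : ∃ v ∈ nb G K u1, ¬ (Sees G R g v c ∧ Sees G R g v c') := by
      by_contra hcon
      push Not at hcon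
      obtain ⟨x1, x2⟩ := hcon v13 m131
      obtain ⟨y1, y2⟩ := hcon v14 m141
      rcases q13 c x1 with e1 | e1 <;> rcases q13 c' x2 with e2 | e2 <;>
        rcases q14 c y1 with e3 | e3 <;> rcases q14 c' y2 with e4 | e4 <;>
        first
          | exact hcc (e1.trans e2.symm)
          | exact hcc (e3.trans e4.symm)
          | exact g34 (e1.symm.trans e3)
          | exact g34 (e2.symm.trans e4)
          | exact hcc (e1.trans e4.symm)
          | exact hcc (e3.trans e2.symm)
    have t2 : ∃ v ∈ nb G K u2, ¬ (Sees G R g v c ∧ Sees G R g v c') := by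
      by_contra hcon
      push Not at hcon
      obtain ⟨x1, x2⟩ := hcon v23 m232
      obtain ⟨y1, y2⟩ := hcon v24 m242
      rcases q23 c x1 with e1 | e1 <;> rcases q23 c' x2 with e2 | e2 <;>
        rcases q24 c y1 with e3 | e3 <;> rcases q24 c' y2 with e4 | e4 <;>
        first
          | exact hcc (e1.trans e2.symm)
          | exact hcc (e3.trans e4.symm)
          | exact g34 (e1.symm.trans e3)
          | exact g34 (e2.symm.trans e4)
          | exact hcc (e1.trans e4.symm)
          | exact hcc (e3.trans e2.symm)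
    obtain ⟨v, hv, hv1⟩ := t1
    obtain ⟨v', hv', hv1'⟩ := t2
    refine ⟨v, (mem_nb.mp hv).1, v', (mem_nb.mp hv').1, ?_, hv1, hv1'⟩
    rintro rfl
    exact Finset.disjoint_left.mp d12 hv hv'
  refine ⟨g, k2, ?_, third⟩
  intro c
  by_contra hcon
  push Not at hcon
  have x13 := q13 c (hcon v13 (mem_nb.mp m131).1)
  have x14 := q14 c (hcon v14 (mem_nb.mp m141).1)
  have x23 := q23 c (hcon v23 (mem_nb.mp m232).1)
  have x24 := q24 c (hcon v24 (mem_nb.mp m242).1)
  rcases x13 with e1 | e1
  · rcases x23 with e2 | e2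
    · exact g12 (e1.symm.trans e2)
    · rcases x24 with e3 | e3
      · exact g12 (e1.symm.trans e3)
      · exact g34 (e2.symm.trans e3)
  · rcases x14 with e2 | e2
    · rcases x24 with e3 | e3
      · exact g12 (e2.symm.trans e3)
      · exact g34 (e1.symm.trans e3)
    · exact g34 (e1.symm.trans e2)

end Pool.Agent.Q247.DJ
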