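import Pool.Agent.Q224.DJ.Forced

/-!
Project DJ, jobs STAR, ONE and E1G.
-/

set_option autoImplicit false

namespace Pool.Agent.Q247.DJ

open Finset Classical Pool.Agent.Q224.DJ

section

variable {V : Type} [Fintype V] {G : SimpleGraph V} {K R : Finset V}

theorem exists_outside (hyp : Hyp G K R) {u : V} (hu : u ∈ R) : ∃ v ∈ K, ¬ G.Adj v u := by
  by_contra h
  push Not at h
  have h1 : K ⊆ nb G K u := fun v hv => mem_nb.mpr ⟨hv, (h v hv).symm⟩
  have h2 := Finset.card_le_card h1
  have h3 := nbK_R hyp hu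
  rw [hyp.2.2.1] at h2
  omega

/-- three different neighbours of a vertex of the clique -/
theorem three (hyp : Hyp G K R) {v a b c : V} (hv : v ∈ K) (ha : a ∈ R) (hb : b ∈ R) (hc : c ∈ R)
    (h1 : G.Adj v a) (h2 : G.Adj v b) (h3 : G.Adj v c) (hab : a ≠ b) (hac : a ≠ c) (hbc : b ≠ c) :
    False := by
  have h4 : ({a, b, c} : Finset V) ⊆ nb G R v := by
    intro x hx
    simp only [Finset.mem_insert, Finset.mem_singleton] at hx
    rcases hx with rfl | rfl | rfl
    · exact mem_nb.mpr ⟨ha, h1⟩
    · exact mem_nb.mpr ⟨hb, h2⟩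
    · exact mem_nb.mpr ⟨hc, h3⟩
  have h5 := Finset.card_le_card h4
  rw [Finset.card_eq_three.mpr ⟨a, b, c, hab, hac, hbc, rfl⟩] at h5
  have h6 := nbR_K hyp hv
  omega

end

/-- Colouring `h` last. -/
theorem star : S_STAR := by
  intro V _ G K R h f hyp hR h4 hf hc
  obtain ⟨v1, hv1, hv1h⟩ := exists_outside hyp hR
  obtain ⟨a, ha⟩ := exists_colour ((nb G R h).image f ∪ (nb G R v1).image f) (by
    refine (Finset.card_union_le _ _).trans ?_
    have h1 := nb_add hyp h
    have h2 := nbR_K hyp hv1
    have h3 := Finset.card_image_le (s := nb G R h) (f := f)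
    have h5 := Finset.card_image_le (s := nb G R v1) (f := f)
    omega)
  rw [Finset.mem_union, not_or] at ha
  obtain ⟨ha1, ha2⟩ := ha
  have hh : ∀ u ∈ R, G.Adj h u → f u ≠ a := by
    intro u hu hhu he
    exact ha1 (Finset.mem_image.mpr ⟨u, mem_nb.mpr ⟨hu, hhu⟩, he⟩)
  have hs1 : ¬ Sees G R (Function.update f h a) v1 a := by
    intro hs
    rcases sees_update hR hs with ⟨h1, _⟩ | ⟨u, hu, hvu, he⟩
    · exact hv1h h1
    · exact ha2 (Finset.mem_image.mpr ⟨u, mem_nb.mpr ⟨Finset.mem_of_mem_erase hu, hvu⟩, he⟩)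
  have hs2 : ∀ c, c ≠ a → ∃ v ∈ nb G K h, ¬ Sees G R (Function.update f h a) v c := by
    intro c hca
    obtain ⟨v, hv, hvc⟩ := hc c
    refine ⟨v, hv, fun hs => ?_⟩
    rcases sees_update hR hs with ⟨_, h1⟩ | h1
    · exact hca h1.symm
    · exact hvc h1
  have hone : ∀ c c', c ≠ c' → c ≠ a → c' ≠ a → ∀ v ∈ nb G K h,
      ¬ (Sees G R (Function.update f h a) v c ∧ Sees G R (Function.update f h a) v c') := by
    rintro c c' hcc hca hca' v hv ⟨⟨u, hu, hvu, he⟩, ⟨u', hu', hvu', he'⟩⟩
    have h1 : u ≠ h := by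
      rintro rfl
      rw [Function.update_self] at he
      exact hca he.symm
    have h2 : u' ≠ h := by
      rintro rfl
      rw [Function.update_self] at he'
      exact hca' he'.symm
    have h3 : u ≠ u' := by
      rintro rfl
      exact hcc (he.symm.trans he')
    exact three hyp (mem_nb.mp hv).1 hu hu' hR hvu hvu' (mem_nb.mp hv).2.symm h3 h1 h2
  have hmix : ∀ c', c' ≠ a → ∃ v ∈ K, ∃ v' ∈ K, v ≠ v' ∧
      ¬ Sees G R (Function.update f h a) v a ∧ ¬ Sees G R (Function.update f h a) v' c' := by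
    intro c' hca
    obtain ⟨v, hv, hvc⟩ := hs2 c' hca
    refine ⟨v1, hv1, v, (mem_nb.mp hv).1, ?_, hs1, hvc⟩
    rintro rfl
    exact hv1h (mem_nb.mp hv).2.symm
  refine ⟨Function.update f h a, col_update hf hh, ?_, ?_⟩
  · intro c
    by_cases hca : c = a
    · rw [hca]
      exact ⟨v1, hv1, hs1⟩
    · obtain ⟨v, hv, hvc⟩ := hs2 c hca
      exact ⟨v, (mem_nb.mp hv).1, hvc⟩
  · intro c c' hcc
    by_cases hca : c = a
    · subst hca
      obtain ⟨v, hv, v', hv', hne, h1, h2⟩ := hmix c' hcc.symm
      exact ⟨v, hv, v', hv', hne, fun h => h1 h.1, fun h => h2 h.2⟩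
    by_cases hca' : c' = a
    · subst hca'
      obtain ⟨v, hv, v', hv', hne, h1, h2⟩ := hmix c hcc
      exact ⟨v, hv, v', hv', hne, fun h => h1 h.2, fun h => h2 h.1⟩
    · obtain ⟨v, hv, v', hv', hne⟩ := Finset.one_lt_card.mp (show 1 < (nb G K h).card by omega)
      exact ⟨v, (mem_nb.mp hv).1, v', (mem_nb.mp hv').1, hne, hone c c' hcc hca hca' v hv,
        hone c c' hcc hca hca' v' hv'⟩

/-- Two vertices with the same neighbours in `K`: the criterion. -/
theorem one_crit {V : Type} [Fintype V] {G : SimpleGraph V} {K R : Finset V} (hyp : Hyp G K R)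
    {h b : V} (hR : h ∈ R) (bR : b ∈ R) (hb : h ≠ b) (hnb : nb G K b = nb G K h)
    (h4 : 4 ≤ (nb G K h).card) {g : V → Fin 7} (hg : Col G R g) {x y : V} (hx : x ∈ K) (hy : y ∈ K)
    (hxs : ¬ Sees G R g x (g h)) (hys : ¬ Sees G R g y (g b)) (hxy : g h ≠ g b → x ≠ y) :
    Good G K R g := by
  have hP : ∀ v ∈ nb G K h, ∀ c, Sees G R g v c → c = g h ∨ c = g b := by
    rintro v hv c ⟨u, hu, hvu, he⟩
    by_contra hc
    rw [not_or] at hc
    have h1 : u ≠ h := by
      rintro rfl
      exact hc.1 he.symm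
    have h2 : u ≠ b := by
      rintro rfl
      exact hc.2 he.symm
    have hv' := hv
    rw [← hnb] at hv'
    exact three hyp (mem_nb.mp hv).1 hu hR bR hvu (mem_nb.mp hv).2.symm (mem_nb.mp hv').2.symm h1 h2 hb
  obtain ⟨v, hv, v', hv', hne⟩ := Finset.one_lt_card.mp (show 1 < (nb G K h).card by omega)
  refine ⟨hg, ?_, ?_⟩
  · intro c
    by_cases h1 : c = g h
    · rw [h1]
      exact ⟨x, hx, hxs⟩
    by_cases h2 : c = g b
    · rw [h2]
      exact ⟨y, hy, hys⟩
    · refine ⟨v, (mem_nb.mp hv).1, fun hs => ?_⟩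
      rcases hP v hv c hs with h | h
      · exact h1 h
      · exact h2 h
  · intro c c' hcc
    by_cases h1 : c ≠ g h ∧ c ≠ g b
    · refine ⟨v, (mem_nb.mp hv).1, v', (mem_nb.mp hv').1, hne, ?_, ?_⟩
      · rintro ⟨hs, _⟩
        rcases hP v hv c hs with h | h
        · exact h1.1 h
        · exact h1.2 h
      · rintro ⟨hs, _⟩
        rcases hP v' hv' c hs with h | h
        · exact h1.1 h
        · exact h1.2 h
    by_cases h2 : c' ≠ g h ∧ c' ≠ g b
    · refine ⟨v, (mem_nb.mp hv).1, v', (mem_nb.mp hv').1, hne, ?_, ?_⟩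
      · rintro ⟨_, hs⟩
        rcases hP v hv c' hs with h | h
        · exact h2.1 h
        · exact h2.2 h
      · rintro ⟨_, hs⟩
        rcases hP v' hv' c' hs with h | h
        · exact h2.1 h
        · exact h2.2 h
    have h3 : (c = g h ∧ c' = g b) ∨ (c = g b ∧ c' = g h) := by
      by_cases e1 : c = g h
      · left
        refine ⟨e1, ?_⟩
        by_contra e2
        apply h2
        refine ⟨fun e3 => hcc (e1.trans e3.symm), e2⟩
      · right
        have e2 : c = g b := by
          by_contra e2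
          exact h1 ⟨e1, e2⟩
        refine ⟨e2, ?_⟩
        by_contra e3
        apply h2
        refine ⟨e3, fun e4 => hcc (e2.trans e4.symm)⟩
    rcases h3 with ⟨e1, e2⟩ | ⟨e1, e2⟩
    · refine ⟨x, hx, y, hy, hxy (by rw [← e1, ← e2]; exact hcc), ?_, ?_⟩
      · rintro ⟨hs, _⟩
        rw [e1] at hs
        exact hxs hs
      · rintro ⟨_, hs⟩
        rw [e2] at hs
        exact hys hs
    · refine ⟨x, hx, y, hy, hxy (by rw [← e1, ← e2]; exact hcc.symm), ?_, ?_⟩
      · rintro ⟨_, hs⟩
        rw [e2] at hs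
        exact hxs hs
      · rintro ⟨hs, _⟩
        rw [e1] at hs
        exact hys hs

/-- Two vertices with the same neighbours in `K`. -/
theorem one : S_ONE := by
  intro V _ G K R h b f hyp hR bR hb hnb h4 hf
  have hkh := nb_add hyp h
  have hkb := nb_add hyp b
  rw [hnb] at hkb
  have hadj : ∀ v ∈ K, (G.Adj v b ↔ G.Adj v h) := by
    intro v hv
    have h1 : v ∈ nb G K b ↔ v ∈ nb G K h := by rw [hnb]
    rw [mem_nb, mem_nb] at h1
    constructor
    · intro h2
      exact (h1.mp ⟨hv, h2.symm⟩).2.symm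
    · intro h2
      exact (h1.mpr ⟨hv, h2.symm⟩).2.symm
  rw [Finset.erase_right_comm] at hf
  have hbR' : b ∈ R.erase h := Finset.mem_erase.mpr ⟨hb.symm, bR⟩
  have h6 := nbK_R hyp hR
  by_cases h5 : 6 ≤ (nb G K h).card
  · -- the two vertices are not adjacent
    have hna : ¬ G.Adj h b := by
      intro hhb
      have h7 : (insert h (insert b (nb G K h))).card = 8 := by
        have e1 : b ∉ nb G K h := fun h => hyp.2.1 b (mem_nb.mp h).1 bR
        have e2 : h ∉ insert b (nb G K h) := by
          intro h8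
          rcases Finset.mem_insert.mp h8 with h8 | h8
          · exact hb h8
          · exact hyp.2.1 h (mem_nb.mp h8).1 hR
        rw [Finset.card_insert_of_notMem e2, Finset.card_insert_of_notMem e1]
        omega
      refine hyp.2.2.2.2.2.2 _ (Finset.subset_univ _) h7 ?_
      have hPP : ∀ z ∈ nb G K h, G.Adj h z := fun z hz => (mem_nb.mp hz).2
      have hPB : ∀ z ∈ nb G K h, G.Adj b z := by
        intro z hz
        rw [← hnb] at hz
        exact (mem_nb.mp hz).2
      intro x hx y hy hxy
      simp only [Finset.mem_insert] at hx hy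
      rcases hx with rfl | rfl | hx <;> rcases hy with rfl | rfl | hy
      · exact absurd rfl hxy
      · exact hhb
      · exact hPP y hy
      · exact hhb.symm
      · exact absurd rfl hxy
      · exact hPB y hy
      · exact (hPP x hx).symm
      · exact (hPB x hx).symm
      · exact hyp.2.2.2.1 x (mem_nb.mp hx).1 y (mem_nb.mp hy).1 hxy
    obtain ⟨v0, hv0, hv0h⟩ := exists_outside hyp hR
    obtain ⟨a, ha⟩ := exists_colour ((nb G R h).image f ∪ (nb G R b).image f ∪
        (nb G R v0).image f) (by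
      refine (Finset.card_union_le _ _).trans ?_
      refine (Nat.add_le_add_right (Finset.card_union_le _ _) _).trans ?_
      have h2 := nbR_K hyp hv0
      have e1 := Finset.card_image_le (s := nb G R h) (f := f)
      have e2 := Finset.card_image_le (s := nb G R b) (f := f)
      have e3 := Finset.card_image_le (s := nb G R v0) (f := f)
      omega)
    rw [Finset.mem_union, Finset.mem_union, not_or, not_or] at ha
    obtain ⟨⟨ha1, ha2⟩, ha3⟩ := ha
    have hh : ∀ u ∈ R, G.Adj h u → f u ≠ a := fun u hu hhu he =>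
      ha1 (Finset.mem_image.mpr ⟨u, mem_nb.mpr ⟨hu, hhu⟩, he⟩)
    have hbb : ∀ u ∈ R, G.Adj b u → f u ≠ a := fun u hu hhu he =>
      ha2 (Finset.mem_image.mpr ⟨u, mem_nb.mpr ⟨hu, hhu⟩, he⟩)
    have hv : ∀ u ∈ R, G.Adj v0 u → f u ≠ a := fun u hu hhu he =>
      ha3 (Finset.mem_image.mpr ⟨u, mem_nb.mpr ⟨hu, hhu⟩, he⟩)
    have c1 : Col G (R.erase b) (Function.update f h a) :=
      col_update hf fun u hu hhu => hh u (Finset.mem_of_mem_erase hu) hhu
    have c2 : Col G R (Function.update (Function.update f h a) b a) := by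
      refine col_update c1 fun u hu hbu => ?_
      have hne : u ≠ h := by
        rintro rfl
        exact hna hbu.symm
      rw [Function.update_of_ne hne]
      exact hbb u hu hbu
    have gh : Function.update (Function.update f h a) b a h = a := by
      rw [Function.update_of_ne hb, Function.update_self]
    have gb : Function.update (Function.update f h a) b a b = a := Function.update_self _ _ _
    have hs : ¬ Sees G R (Function.update (Function.update f h a) b a) v0 a := by
      rintro ⟨u, hu, hvu, he⟩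
      have e1 : u ≠ h := by
        rintro rfl
        exact hv0h hvu
      have e2 : u ≠ b := by
        rintro rfl
        exact hv0h ((hadj v0 hv0).mp hvu)
      rw [Function.update_of_ne e2, Function.update_of_ne e1] at he
      exact hv u hu hvu he
    refine ⟨_, one_crit hyp hR bR hb hnb h4 c2 hv0 hv0 (by rw [gh]; exact hs) (by rw [gb]; exact hs)
      (fun h => absurd (gh.trans gb.symm) h)⟩
  · have hP5 : (K.filter (fun v => ¬ G.Adj h v)).card ≥ 2 := by
      have e1 : (nb G K h).card + (K.filter (fun v => ¬ G.Adj h v)).card = K.card :=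
        Finset.card_filter_add_card_filter_not (s := K) (fun v => G.Adj h v)
      rw [hyp.2.2.1] at e1
      omega
    obtain ⟨x, hx, y, hy, hxy⟩ := Finset.one_lt_card.mp
      (show 1 < (K.filter (fun v => ¬ G.Adj h v)).card by omega)
    rw [Finset.mem_filter] at hx hy
    obtain ⟨hxK, hxh⟩ := hx
    obtain ⟨hyK, hyh⟩ := hy
    obtain ⟨a, ha⟩ := exists_colour ((nb G R h).image f ∪ (nb G R x).image f) (by
      refine (Finset.card_union_le _ _).trans ?_
      have h2 := nbR_K hyp hxK
      have e1 := Finset.card_image_le (s := nb G R h) (f := f)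
      have e3 := Finset.card_image_le (s := nb G R x) (f := f)
      omega)
    rw [Finset.mem_union, not_or] at ha
    obtain ⟨ha1, ha2⟩ := ha
    have hh : ∀ u ∈ R, G.Adj h u → f u ≠ a := fun u hu hhu he =>
      ha1 (Finset.mem_image.mpr ⟨u, mem_nb.mpr ⟨hu, hhu⟩, he⟩)
    have hv : ∀ u ∈ R, G.Adj x u → f u ≠ a := fun u hu hhu he =>
      ha2 (Finset.mem_image.mpr ⟨u, mem_nb.mpr ⟨hu, hhu⟩, he⟩)
    have c1 : Col G (R.erase b) (Function.update f h a) :=
      col_update hf fun u hu hhu => hh u (Finset.mem_of_mem_erase hu) hhu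
    obtain ⟨a', ha'⟩ := exists_colour ((nb G R b).image (Function.update f h a) ∪
        (nb G R y).image (Function.update f h a)) (by
      refine (Finset.card_union_le _ _).trans ?_
      have h2 := nbR_K hyp hyK
      have e1 := Finset.card_image_le (s := nb G R b) (f := Function.update f h a)
      have e3 := Finset.card_image_le (s := nb G R y) (f := Function.update f h a)
      omega)
    rw [Finset.mem_union, not_or] at ha'
    obtain ⟨ha1', ha2'⟩ := ha'
    have c2 : Col G R (Function.update (Function.update f h a) b a') := by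
      refine col_update c1 fun u hu hbu he => ?_
      exact ha1' (Finset.mem_image.mpr ⟨u, mem_nb.mpr ⟨hu, hbu⟩, he⟩)
    have gh : Function.update (Function.update f h a) b a' h = a := by
      rw [Function.update_of_ne hb, Function.update_self]
    have gb : Function.update (Function.update f h a) b a' b = a' := Function.update_self _ _ _
    have ne1 : ∀ v ∈ K, ¬ G.Adj h v → ∀ u, G.Adj v u → u ≠ h ∧ u ≠ b := by
      intro v hvK hvh u hvu
      constructor
      · rintro rfl
        exact hvh hvu.symm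
      · rintro rfl
        exact hvh ((hadj v hvK).mp hvu).symm
    refine ⟨_, one_crit hyp hR bR hb hnb h4 c2 hxK hyK ?_ ?_ (fun _ => hxy)⟩
    · rw [gh]
      rintro ⟨u, hu, hvu, he⟩
      obtain ⟨e1, e2⟩ := ne1 x hxK hxh u hvu
      rw [Function.update_of_ne e2, Function.update_of_ne e1] at he
      exact hv u hu hvu he
    · rw [gb]
      rintro ⟨u, hu, hvu, he⟩
      obtain ⟨e1, e2⟩ := ne1 y hyK hyh u hvu
      rw [Function.update_of_ne e2] at he
      exact ha2' (Finset.mem_image.mpr ⟨u, mem_nb.mpr ⟨hu, hvu⟩, he⟩)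

end Pool.Agent.Q247.DJ
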